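import Pool.Agent.V11309.Anti.Small2
import Pool.Agent.V11309.Anti.S1
import Pool.Agent.V11309.Anti.S2
import Pool.Agent.V11309.Anti.S3
import Pool.Agent.V11309.Anti.S4
import Pool.Agent.V11309.Anti.S5
import Pool.Agent.V11309.Anti.S6
import Pool.Agent.V11309.Anti.S7
import Pool.Agent.V11309.Anti.S8
import Pool.Agent.V11309.Anti.S9

/-!
Every positive integer other than 24, 37, 49, 117, 421 is a sum of at most three numbers that
are antipalindromic in base 3, and these five are not.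
-/

namespace Pool.Agent.Results.MP_8ef15a_nt.AllButFive

open Pool.Agent.V11309.Anti

/-- numbers with at least 14 digits. -/
theorem large (N : ℕ) (hN : 3 ^ 13 ≤ N) : Sum3 N := by
  set n := Nat.log 3 N + 1 with hn
  have h1 : 3 ^ (n - 1) ≤ N := by
    rw [hn, Nat.add_sub_cancel]; exact Nat.pow_log_le_self 3 (by omega)
  have h2 : N < 3 ^ n := Nat.lt_pow_succ_log_self (by norm_num) N
  have hn14 : 14 ≤ n := by
    have : 13 ≤ Nat.log 3 N := Nat.le_log_of_pow_le (by norm_num) hN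
    omega
  obtain ⟨m, hm⟩ : ∃ m, n = m + 3 := ⟨n - 3, by omega⟩
  have e3 : N / 3 ^ (n - 3) = N / 3 ^ m := by rw [hm, Nat.add_sub_cancel]
  have e2 : N / 3 ^ (n - 2) = N / 3 ^ m / 3 := by
    rw [hm, show m + 3 - 2 = m + 1 by omega, pow_succ, Nat.div_div_eq_div_mul]
  have hx1 : 9 ≤ N / 3 ^ m := by
    rw [Nat.le_div_iff_mul_le (by positivity)]
    have : 3 ^ (n - 1) = 9 * 3 ^ m := by
      rw [hm, show m + 3 - 1 = m + 2 by omega, pow_add]; ring
    omega
  have hx2 : N / 3 ^ m < 27 := by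
    rw [Nat.div_lt_iff_lt_mul (by positivity)]
    have : 3 ^ n = 27 * 3 ^ m := by rw [hm, pow_add]; ring
    omega
  have use3 : ∀ g x, PieceOK g 3 x → N / 3 ^ m = x → (N + n + g) % 2 = 0 → Sum3 N :=
    fun g x h hx hg => h n N hn14 h2 (e3.trans hx) hg
  have use2 : ∀ g x, PieceOK g 2 x → N / 3 ^ m / 3 = x → (N + n + g) % 2 = 0 → Sum3 N :=
    fun g x h hx hg => h n N hn14 h2 (e2.trans hx) hg
  rcases Nat.mod_two_eq_zero_or_one (N + n) with hp | hp
  · have hp0 : (N + n + 0) % 2 = 0 := by omega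
    rcases Nat.lt_or_ge (N / 3 ^ m) 18 with h18 | h18
    · obtain h | h | h | h | h | h | h | h | h : N / 3 ^ m = 9 ∨ N / 3 ^ m = 10 ∨ N / 3 ^ m = 11 ∨
          N / 3 ^ m = 12 ∨ N / 3 ^ m = 13 ∨ N / 3 ^ m = 14 ∨ N / 3 ^ m = 15 ∨ N / 3 ^ m = 16 ∨
          N / 3 ^ m = 17 := by omega
      · exact use3 0 9 S1.p100 h hp0
      · exact use3 0 10 S2.p101 h hp0
      · exact use3 0 11 S3.p102 h hp0
      · exact use3 0 12 S3.p110 h hp0
      · exact use3 0 13 S3.p111 h hp0
      · exact use3 0 14 S3.p112 h hp0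
      · exact use3 0 15 S3.p120 h hp0
      · exact use3 0 16 S3.p121 h hp0
      · exact use3 0 17 S4.p122 h hp0
    · obtain h | h | h : N / 3 ^ m / 3 = 6 ∨ N / 3 ^ m / 3 = 7 ∨ N / 3 ^ m / 3 = 8 := by omega
      · exact use2 0 6 S4.p20 h hp0
      · exact use2 0 7 S4.p21 h hp0
      · exact use2 0 8 S5.p22 h hp0
  · have hp0 : (N + n + 1) % 2 = 0 := by omega
    rcases Nat.lt_or_ge (N / 3 ^ m) 12 with h12 | h12
    · obtain h | h | h : N / 3 ^ m = 9 ∨ N / 3 ^ m = 10 ∨ N / 3 ^ m = 11 := by omega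
      · exact use3 1 9 S6.p100 h hp0
      · exact use3 1 10 S6.p101 h hp0
      · exact use3 1 11 S7.p102 h hp0
    · rcases Nat.lt_or_ge (N / 3 ^ m) 18 with h18 | h18
      · obtain h | h : N / 3 ^ m / 3 = 4 ∨ N / 3 ^ m / 3 = 5 := by omega
        · exact use2 1 4 S7.p11 h hp0
        · exact use2 1 5 S8.p12 h hp0
      · rcases Nat.lt_or_ge (N / 3 ^ m) 21 with h21 | h21
        · obtain h | h | h : N / 3 ^ m = 18 ∨ N / 3 ^ m = 19 ∨ N / 3 ^ m = 20 := by omega
          · exact use3 1 18 S8.p200 h hp0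
          · exact use3 1 19 S9.p201 h hp0
          · exact use3 1 20 S9.p202 h hp0
        · obtain h | h : N / 3 ^ m / 3 = 7 ∨ N / 3 ^ m / 3 = 8 := by omega
          · exact use2 1 7 S9.p21 h hp0
          · exact use2 1 8 S8.p22 h hp0

/-- `n` is antipalindromic in base 3: it is positive, and in its base 3 expansion (without
leading zeros) any two digits in mirror positions add up to 2. -/
def Antipalindromic (n : ℕ) : Prop :=
  0 < n ∧ ∀ i < (Nat.digits 3 n).length,
    (Nat.digits 3 n).getD i 0 + (Nat.digits 3 n).getD ((Nat.digits 3 n).length - 1 - i) 0 = 2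

/-- the antipalindromic numbers below `422`. -/
def lst : List ℕ := [1, 4, 6, 13, 21, 34, 40, 46, 60, 66, 72, 97, 121, 145, 177, 201, 225, 268,
  286, 304, 346, 364, 382]

theorem lst_complete : ∀ a < 422, ∀ L < 6, (3 ^ L ≤ a ∧ a < 3 ^ (L + 1) ∧
    ∀ i < L + 1, a / 3 ^ i % 3 + a / 3 ^ (L - i) % 3 = 2) → a ∈ lst := by
  decide +kernel

theorem mem_lst {a : ℕ} (h : Antipal a) (ha : a < 422) : a ∈ lst := by
  obtain ⟨L, h1, h2, h3⟩ := antipal_digits h
  refine lst_complete a ha L ?_ ⟨h1, h2, h3⟩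
  by_contra hL
  have : 3 ^ 6 ≤ 3 ^ L := Nat.pow_le_pow_right (by norm_num) (by omega)
  omega

theorem no1 : ∀ n ∈ [24, 37, 49, 117, 421], n ∉ lst := by decide +kernel

theorem no2 : ∀ n ∈ [24, 37, 49, 117, 421], ∀ a ∈ lst, ∀ b ∈ lst, n ≠ a + b := by decide +kernel

theorem no3 : ∀ n ∈ [24, 37, 49, 117, 421], ∀ a ∈ lst, ∀ b ∈ lst, ∀ c ∈ lst,
    n ≠ a + b + c := by decide +kernel

theorem exceptional {n : ℕ} (hn : n ∈ [24, 37, 49, 117, 421]) : ¬ Sum3 n := by
  have hlt : n < 422 := by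
    simp only [List.mem_cons, List.not_mem_nil, or_false] at hn
    omega
  rintro (h | ⟨a, b, ha, hb, h⟩ | ⟨a, b, c, ha, hb, hc, h⟩)
  · exact no1 n hn (mem_lst h hlt)
  · exact no2 n hn a (mem_lst ha (by omega)) b (mem_lst hb (by omega)) h
  · exact no3 n hn a (mem_lst ha (by omega)) b (mem_lst hb (by omega)) c (mem_lst hc (by omega)) h

/-- A positive integer is a sum of at most three numbers that are antipalindromic in base 3 if
and only if it is none of `24, 37, 49, 117, 421`. -/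
theorem result (N : ℕ) (hN : 0 < N) :
    (Antipalindromic N ∨ (∃ a b, Antipalindromic a ∧ Antipalindromic b ∧ N = a + b) ∨
      ∃ a b c, Antipalindromic a ∧ Antipalindromic b ∧ Antipalindromic c ∧ N = a + b + c) ↔
    N ∉ ({24, 37, 49, 117, 421} : Set ℕ) := by
  change Sum3 N ↔ _
  constructor
  · intro h hmem
    refine exceptional ?_ h
    simpa using hmem
  · intro h
    simp only [Set.mem_insert_iff, Set.mem_singleton_iff, not_or] at h
    rcases Nat.lt_or_ge N (3 ^ 13) with h1 | h1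
    · exact small_of_chk small hN h1 h.1 h.2.1 h.2.2.1 h.2.2.2.1 h.2.2.2.2
    · exact large N h1

end Pool.Agent.Results.MP_8ef15a_nt.AllButFive
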